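import Pool.Agent.H18.XX.All
import Pool.Agent.H12.XZ.CNC
import Pool.Agent.H13.XZ.BLF
import Pool.Agent.H13.XZ.TBZ
import Pool.Agent.H15.XZ.HFS
import Pool.Agent.H15.XZ.TDI
import Pool.Agent.H21.XZ.FIS
import Pool.Agent.H21.XZ.FMS
import Pool.Agent.H21.XZ.NUB
import Pool.Agent.H21.XZ.WTS
import Pool.Agent.H58.XZ.ABS
import Pool.Agent.H6.XZ.ISO
import Pool.Agent.H61.XZ.TDL
import Pool.Agent.H66.XZ.MAS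
import Pool.Agent.H78.XZ.EXM
import Pool.Agent.H78.XZ.SMP
import Pool.Agent.H78.XZ.WYD
import Pool.Agent.H79.XZ.PFS
import Pool.Agent.H86.XZ.BLD
import Pool.Agent.H86.XZ.CUB
import Pool.Agent.H88.XZ.RPL
import Pool.Agent.H88.XZ.RXS
import Pool.Agent.H90.XZ.BLK
import Pool.Agent.H90.XZ.CRD
import Pool.Agent.H90.XZ.SUS
import Pool.Agent.H95.XZ.NUS

/-!
# Assembly: exponentially large protocols beside the exponential hierarchy in EQP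
-/

set_option autoImplicit false

namespace Pool.Agent.H18.XZ

theorem qf_HFS : T_HFS := Pool.Agent.H15.XZ.pf_HFS

theorem qf_WTS : T_WTS := Pool.Agent.H21.XZ.pf_WTS

theorem qf_EXM : T_EXM := Pool.Agent.H78.XZ.pf_EXM

theorem qf_CUB : T_CUB := Pool.Agent.H86.XZ.pf_CUB qf_HFS qf_WTS qf_EXM

theorem qf_SMP : T_SMP := Pool.Agent.H78.XZ.pf_SMP

theorem qf_RPL : T_RPL := Pool.Agent.H88.XZ.pf_RPL

theorem qf_ABS : T_ABS := Pool.Agent.H58.XZ.pf_ABS qf_CUB qf_SMP qf_RPL qf_WTS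

theorem qf_TDI : T_TDI := Pool.Agent.H15.XZ.pf_TDI Pool.Agent.H70.EI.pf_RED_OQ
  Pool.Agent.H70.EI.pf_SYM_OQ Pool.Agent.H70.EI.pf_LIV_OQ Pool.Agent.H70.EI.pf_UWS_OQ
  Pool.Agent.H70.EI.pf_LWS_OQ

theorem qf_TDL : T_TDL := Pool.Agent.H61.XZ.pf_TDL qf_TDI Pool.Agent.H70.EI.pf_FMM_OQ

theorem qf_ISO : T_ISO := Pool.Agent.H6.XZ.pf_ISO

theorem qf_TBZ : T_TBZ := Pool.Agent.H13.XZ.pf_TBZ

theorem qf_MAS : T_MAS := Pool.Agent.H66.XZ.pf_MAS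

theorem qf_BLD : T_BLD := Pool.Agent.H86.XZ.pf_BLD qf_TDL qf_ISO Pool.Agent.H70.EI.pf_FML

theorem qf_BLF : T_BLF := Pool.Agent.H13.XZ.pf_BLF qf_BLD qf_MAS qf_ABS qf_TBZ
  Pool.Agent.H70.EI.pf_SYM_OQ Pool.Agent.H70.EI.pf_LIV_OQ Pool.Agent.H70.EI.pf_LWS_OQ qf_WTS

theorem qf_BLK : T_BLK := Pool.Agent.H90.XZ.pf_BLK

theorem qf_CRD : T_CRD := Pool.Agent.H90.XZ.pf_CRD

theorem qf_NUB : T_NUB := Pool.Agent.H21.XZ.NUB.pf_NUB qf_CRD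

theorem qf_CNC : T_CNC := Pool.Agent.H12.XZ.pf_CNC qf_BLF qf_BLK qf_CRD qf_NUB

theorem qf_PFS : T_PFS := Pool.Agent.H79.XZ.pf_PFS Pool.Agent.H66.IQ.pf_PTR
  Pool.Agent.H66.AV.pf_TPR Pool.Agent.H66.IP.pf_IZU Pool.Agent.H66.IP.pf_SPF
  Pool.Agent.H18.XX.qf_RBF Pool.Agent.H18.XX.qf_CLO

theorem qf_WYD : T_WYD := Pool.Agent.H78.XZ.pf_WYD Pool.Agent.H18.XX.qf_CTN
  Pool.Agent.H66.IP.pf_MSB

theorem qf_RXS : T_RXS := Pool.Agent.H88.XZ.pf_RXS qf_PFS Pool.Agent.H18.XX.qf_HYZ qf_WYD qf_CNC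
  Pool.Agent.H66.AV.pf_OVL

theorem qf_NUS : T_NUS := Pool.Agent.H95.XZ.pf_NUS

theorem qf_SUS : T_SUS := Pool.Agent.H90.XZ.pf_SUS Pool.Agent.H66.AV.pf_AMP
  Pool.Agent.H66.AV.pf_POW Pool.Agent.H66.AV.pf_NUM qf_NUS qf_RXS Pool.Agent.H66.AV.pf_RCT
  Pool.Agent.H66.AV.pf_GZA Pool.Agent.H66.AV.pf_OVL

theorem qf_FMS : T_FMS := Pool.Agent.H21.XZ.pf_FMS qf_SUS Pool.Agent.H18.XX.qf_HYZ
  Pool.Agent.H66.AV.pf_ALG Pool.Agent.H66.AV.pf_OVL Pool.Agent.H66.AV.pf_GZA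
  Pool.Agent.H66.IP.pf_ISZ Pool.Agent.H66.IP.pf_SPF Pool.Agent.H17.XW.pf_UNA

theorem qf_FIS : T_FIS := Pool.Agent.H21.XZ.FIS.pf_FIS qf_FMS Pool.Agent.H66.AV.pf_CPT
  Pool.Agent.H18.XX.qf_GDZ Pool.Agent.H66.AV.pf_RLO Pool.Agent.H17.XW.pf_UNL
  Pool.Agent.H18.XX.qf_EXZ

end Pool.Agent.H18.XZ
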