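import Pool.Agent.H18.XX.Stmt

/-!
# Protocols with few coins: definition
-/

set_option autoImplicit false

namespace Pool.Agent.H18.XZ

open Pool.Agent.H66.IQ (Prot)

/-- The maximal number of coin tosses of the verifier. -/
def coins {k : ℕ} : Prot k → ℕ
  | .test _ => 0
  | .coin l r => max (coins l) (coins r) + 1
  | .say l r => max (coins l) (coins r)

end Pool.Agent.H18.XZ
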