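import Pool.Agent.H18.XZ.TD
import Pool.Agent.H18.XZ.Stmt

/-!
# Exponentially large protocols beside the exponential hierarchy in EQP: targets, part E (exponentially
long advice for protocols with few coins, any number of moves of the prover)
-/

set_option autoImplicit false

namespace Pool.Agent.H18.XZ

open Finset Pool.Agent.H6.NB Pool.Agent.H70.OQ Pool.Agent.H70.EH Pool.Agent.H70.EI Pool.Agent.H78.XQ
open Pool.Agent.H66.IP (Local ins sp dm IsZ scl mBp m0p)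
open Pool.Agent.H66.IQ Pool.Agent.H66.AV
open Pool.Agent.H17.XW (Una)
open Pool.Agent.H18.XX (Exa lx ax GoodZ Cz wz wy RhZ bd Rhd)

open Classical in
/-- DNP: with few coins it is a disjunction of conjunctions of examinations whether the value is at
least `t / 2 ^ μ`. -/
def T_DNP : Prop := ∀ (k m μ : ℕ) (G : Prot k), G.Within m → coins G ≤ μ → ∀ t : ℕ, 0 < t →
  ∃ F : List (List (Exam k)), F.length ≤ 2 ^ (2 ^ (μ + 1) * (m + μ + 2)) ∧
    (∀ A ∈ F, A.length ≤ 2 ^ μ ∧ ∀ T ∈ A, T.depth ≤ m ∧ T.Small m) ∧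
    ∀ O : List Bool → Bool,
      (t : ℝ) ≤ 2 ^ μ * G.val O ↔ ∃ A ∈ F, ∀ T ∈ A, T.eval O = true

/-- DYA: the value is a multiple of `2 ^ (-μ)`. -/
def T_DYA : Prop := ∀ (k μ : ℕ) (G : Prot k), coins G ≤ μ → ∀ O : List Bool → Bool,
  ∃ t : ℕ, 2 ^ μ * G.val O = (t : ℝ)

open Classical in
/-- BFC: it is a formula whether protocols with few coins are right too often. -/
def T_BFC : Prop := ∀ k : ℕ, ∃ n₀, ∀ n ≥ n₀, ∀ r : ℕ, n / 25 < r →
  ∀ G : (Fin n → Bool) → Prot k, (∀ x, (G x).Within (2 ^ (n / 16))) →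
  (∀ x, 1000 * coins (G x) ≤ n ^ 2) → ∀ (X : Type) (O : (X → Bool) → List Bool → Bool), Lit O →
  ∀ b : (Fin n → Bool) → Bool, Cl X (2 ^ bd r) r fun y => decide (Bdr G b (O y))

/-- RHC: the blocks of large scale are hidden from the event that the protocols are right too
often. -/
def T_RHC : Prop := ∀ (V : ℕ → Exa) (k : ℕ), ∃ n₀, ∀ n ≥ n₀, ∀ G : (Fin n → Bool) → Prot k,
  (∀ x, (G x).Within (2 ^ (n / 16))) → (∀ x, 1000 * coins (G x) ≤ n ^ 2) →
  ∀ (E : Finset (ℕ × List Bool))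
    (O : (∀ p : {a // a ∈ E}, Cz V p.1) → (List Bool → Bool) → List Bool → Bool),
    IsZ (dm (lx V)) E O → ∀ (g g₁ : List Bool → Bool) (b : (Fin n → Bool) → Bool)
      (p : {a // a ∈ E}), n / 25 < scl (lx V) p.1 → RhY V E O g p fun P => Bdr G b (O P g₁)

/-- PRC: protocols with few coins are rarely right too often. -/
def T_PRC : Prop := ∀ (V : ℕ → Exa) (k : ℕ), ∃ n₁, ∀ n ≥ n₁, ∀ G : List Bool → Prot k,
  (∀ x : Fin n → Bool, (G (List.ofFn x)).Within (2 ^ (n / 16))) →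
  (∀ x : Fin n → Bool, 1000 * coins (G (List.ofFn x)) ≤ n ^ 2) →
  ∀ (M : ℕ) (_ : k < M) (_ : n < M) (E : Finset (ℕ × List Bool))
    (O : (∀ p : {a // a ∈ E}, Cz V p.1) → (List Bool → Bool) → List Bool → Bool),
    IsZ (dm (lx V)) E O →
    ∑ z : Za M, ∑ P, wz V E O (gza M z) P *
      ic ((1 / 2 + (1 / 2 : ℝ) ^ (n / 64)) * 2 ^ n < (rights G (O P (gza M z)) n : ℝ)) ≤
    Fintype.card (Za M) * (1 / 2) ^ 2 ^ (n / 28)

/-- FM3: the oracle for finitely many requirements. -/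
def T_FM3 : Prop := ∀ (V : ℕ → Exa) (G : ℕ → (k : ℕ) × (List Bool → List Bool → Prot k)),
  (∀ j, ∃ n₀, ∀ a x : List Bool, n₀ ≤ x.length → a.length ≤ 2 ^ (x.length / 30) →
    ((G j).2 a x).Within (2 ^ (x.length / 16))) →
  ∃ N : ℕ → ℕ, ∀ M : ℕ, ∃ O : List Bool → Bool,
    (∀ p, (sp (lx V) p).length ≤ M → GoodZ V p O) ∧
    (∀ k n, k < M → n < M → ∀ x : Fin n → Bool,
      Una O (k + 1) n (false :: hdr k (List.ofFn x))) ∧
    ∀ j < M, ∀ n < M, N j ≤ n → ∀ a : List Bool,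
      (200 * a.length ≤ n ∨ (a.length ≤ 2 ^ (n / 30) ∧
        ∀ x : List Bool, x.length = n → 1000 * coins ((G j).2 a x) ≤ n ^ 2)) →
      (rights ((G j).2 a) O n : ℝ) ≤ (1 / 2 + (1 / 2) ^ (n / 64)) * 2 ^ n

/-- FI3: the theorem. -/
def T_FI3 : Prop := ∀ (V : ℕ → Exa) (G : ℕ → (k : ℕ) × (List Bool → List Bool → Prot k)),
  (∀ j, ∃ n₀, ∀ a x : List Bool, n₀ ≤ x.length → a.length ≤ 2 ^ (x.length / 30) →
    ((G j).2 a x).Within (2 ^ (x.length / 16))) →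
  ∃ O : List Bool → Bool,
    (∀ i x, (x ∈ (V i).M.lang O → (exact (ins (V i).c i x)).prob O = 1) ∧
      (x ∉ (V i).M.lang O → (exact (ins (V i).c i x)).prob O = 0)) ∧
    (∀ (k : ℕ) (x : List Bool), Una O (k + 1) x.length (false :: hdr k x)) ∧
    ∀ j, ∃ n₀, ∀ n ≥ n₀, ∀ a : List Bool,
      (200 * a.length ≤ n ∨ (a.length ≤ 2 ^ (n / 30) ∧
        ∀ x : List Bool, x.length = n → 1000 * coins ((G j).2 a x) ≤ n ^ 2)) →
      (rights ((G j).2 a) O n : ℝ) ≤ (1 / 2 + (1 / 2) ^ (n / 64)) * 2 ^ n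

end Pool.Agent.H18.XZ
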