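import Pool.Agent.H18.XZ.TC

/-!
# Exponentially large protocols beside the exponential hierarchy in EQP: targets, part D (exponentially
long advice for protocols with few moves)
-/

set_option autoImplicit false

namespace Pool.Agent.H18.XZ

open Finset Pool.Agent.H6.NB Pool.Agent.H70.OQ Pool.Agent.H70.EH Pool.Agent.H70.EI Pool.Agent.H78.XQ
open Pool.Agent.H66.IP (Local ins sp dm IsZ scl mBp m0p)
open Pool.Agent.H66.IQ Pool.Agent.H66.AV
open Pool.Agent.H17.XW (Una)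
open Pool.Agent.H18.XX (Exa lx ax GoodZ Cz wz wy RhZ bd Rhd)

/-- The coordinate `j` is hidden from `F`, relative to `F` itself and to the events which are given by
the bits `f` of the coordinates `i` with `ord i ≤ ord j`. -/
def Rhm {I : Type} [DecidableEq I] {T : I → Type} [∀ j, Fintype (T j)] (ord : I → ℕ)
    (m₀ : ∀ j, T j → ℝ) (m : Bool → ∀ j, T j → ℝ) (f : (∀ j, T j) → I → Bool) (ε τ : I → ℝ)
    (j : I) (F : (∀ j, T j) → ℝ) : Prop :=
  ∀ (κ : I → Bool) (P : ∀ j, T j),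
    |∑ p, m (κ j) j p * (F (Function.update P j p) *
        ic (∀ i, ord i ≤ ord j → f (Function.update P j p) i = κ i)) -
      ∑ p, m₀ j p * (F (Function.update P j p) *
        ic (∀ i, ord i ≤ ord j → f (Function.update P j p) i = κ i))| ≤
      ε j * ∑ p, m₀ j p * (F (Function.update P j p) *
        ic (∀ i, ord i ≤ ord j → f (Function.update P j p) i = κ i)) + τ j

/-- The block of `p` is hidden from the event `B`, relative to the event itself. -/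
def RhY (V : ℕ → Exa) (E : Finset (ℕ × List Bool))
    (O : (∀ p : {a // a ∈ E}, Cz V p.1) → (List Bool → Bool) → List Bool → Bool)
    (g : List Bool → Bool) (p : {a // a ∈ E})
    (B : (∀ p : {a // a ∈ E}, Cz V p.1) → Prop) : Prop :=
  Rhm (T := fun p : {a // a ∈ E} => Cz V p.1) (fun p => scl (lx V) p.1)
    (fun p => m0p (lx V) p.1) (fun b p => mBp (lx V) p.1 b) (fun P p => ax V (O P g) p.1)
    (fun p => (1 / 2) ^ scl (lx V) p.1 ^ 3) (fun p => 1 / 2 ^ 2 ^ (scl (lx V) p.1 + 3)) p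
    fun P => ic (B P)

open Classical in
/-- The protocols are right too often, if `b x` says whether `x` is in the language. -/
def Bdr {n k : ℕ} (G : (Fin n → Bool) → Prot k) (b : (Fin n → Bool) → Bool)
    (O : List Bool → Bool) : Prop :=
  (1 / 2 + (1 / 2 : ℝ) ^ (n / 64)) * 2 ^ n <
    ((univ.filter fun x => (G x).Proves O (b x = false)).card : ℝ)

/-- CNM: the distributions which depend on all coordinates are replaced by the uniform ones,
multiplicative errors. -/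
def T_CNM : Prop := ∀ (I : Type) [Fintype I] [DecidableEq I] (T : I → Type) [∀ j, Fintype (T j)]
  (ord : I → ℕ) (m₀ : ∀ j, T j → ℝ) (m : Bool → ∀ j, T j → ℝ) (f : (∀ j, T j) → I → Bool)
  (ε τ : I → ℝ), (∀ j p, 0 ≤ m₀ j p) → (∀ j, ∑ p, m₀ j p = 1) → (∀ b j p, 0 ≤ m b j p) →
  (∀ b j, ∑ p, m b j p ≤ 1) → (∀ j, 0 ≤ ε j) → (∀ j, 0 ≤ τ j) →
  ∑ j, (2 * ε j + 2 ^ (univ.filter fun i => ord i ≤ ord j).card * τ j) ≤ 1 / 4 →
  ∀ (n : ℕ) (F : (∀ j, T j) → ℝ), (∀ P, 0 ≤ F P) →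
    (∀ j, n < ord j → Rhm ord m₀ m f ε τ j F) →
    ∑ P : (∀ j, T j), (∏ j, m (f P j) j (P j)) * F P ≤
      2 * ∑ P : (∀ j, T j), (∏ j, if ord j ≤ n then m (f P j) j (P j) else m₀ j (P j)) * F P +
      2 * ∑ j ∈ univ.filter (fun j => n < ord j),
        2 ^ (univ.filter fun i => ord i ≤ ord j).card * τ j

/-- HYM: the replacement of the blocks of large scale for an event. -/
def T_HYM : Prop := ∀ (V : ℕ → Exa) (E : Finset (ℕ × List Bool))
  (O : (∀ p : {a // a ∈ E}, Cz V p.1) → (List Bool → Bool) → List Bool → Bool),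
  IsZ (dm (lx V)) E O → ∀ (g : List Bool → Bool) (s : ℕ)
    (B : (∀ p : {a // a ∈ E}, Cz V p.1) → Prop), 20 ≤ s →
    (∀ p : {a // a ∈ E}, s < scl (lx V) p.1 → RhY V E O g p B) →
    ∑ P, wz V E O g P * ic (B P) ≤
      2 * ∑ P, wy V E O s g P * ic (B P) + (1 / 2) ^ 2 ^ (s + 2)

open Classical in
/-- CLP: the answers of the instances of scale at most `r`, together with a formula. -/
def T_CLP : Prop := ∀ (X : Type) (V : ℕ → Exa) (E : Finset (ℕ × List Bool)) (r : ℕ)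
  (O : (X → Bool) → List Bool → Bool) (κ : {a // a ∈ E} → Bool) (C : (X → Bool) → Prop),
  Lit O → 20 ≤ r → Cl X (2 ^ bd r) r (fun y => decide (C y)) →
  Cl X (2 ^ bd r) (r + 2) fun y =>
    decide ((∀ i : {a // a ∈ E}, scl (lx V) i.1 ≤ r → ax V (O y) i.1 = κ i) ∧ C y)

open Classical in
/-- BFO: it is a formula whether protocols with few moves are right too often. -/
def T_BFO : Prop := ∀ k : ℕ, ∃ n₀, ∀ n ≥ n₀, ∀ r : ℕ, n / 25 < r →
  ∀ G : (Fin n → Bool) → Prot k, (∀ x, (G x).Within (2 ^ (n / 16))) →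
  (∀ x, 1000 * (G x).moves ≤ n ^ 2) → ∀ (X : Type) (O : (X → Bool) → List Bool → Bool), Lit O →
  ∀ b : (Fin n → Bool) → Bool, Cl X (2 ^ bd r) r fun y => decide (Bdr G b (O y))

/-- RHB: the blocks of large scale are hidden from the event that the protocols are right too
often. -/
def T_RHB : Prop := ∀ (V : ℕ → Exa) (k : ℕ), ∃ n₀, ∀ n ≥ n₀, ∀ G : (Fin n → Bool) → Prot k,
  (∀ x, (G x).Within (2 ^ (n / 16))) → (∀ x, 1000 * (G x).moves ≤ n ^ 2) →
  ∀ (E : Finset (ℕ × List Bool))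
    (O : (∀ p : {a // a ∈ E}, Cz V p.1) → (List Bool → Bool) → List Bool → Bool),
    IsZ (dm (lx V)) E O → ∀ (g g₁ : List Bool → Bool) (b : (Fin n → Bool) → Bool)
      (p : {a // a ∈ E}), n / 25 < scl (lx V) p.1 → RhY V E O g p fun P => Bdr G b (O P g₁)

/-- CNB: for uniform tables protocols are rarely right too often. -/
def T_CNB : Prop := ∀ k : ℕ, ∃ n₀, ∀ n ≥ n₀, ∀ G : (Fin n → Bool) → Prot k,
  (∀ x, (G x).Within (2 ^ (n / 16))) →
  ∀ Q : ((Fin n → Bool) → Nn n k → Bool) → List Bool → Bool, LitT Q →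
  (∀ (z : Wn n k) (x : Fin n → Bool), List.ofFn x ∈ alang k (Q (tbl z)) ↔ (z x).1 = true) →
  ∑ z : Wn n k, ic (Bdr G (fun x => (z x).1) (Q (tbl z))) ≤
    Fintype.card (Wn n k) * (1 / 2) ^ 2 ^ (n / 20)

/-- PRB: protocols with few moves are rarely right too often. -/
def T_PRB : Prop := ∀ (V : ℕ → Exa) (k : ℕ), ∃ n₁, ∀ n ≥ n₁, ∀ G : List Bool → Prot k,
  (∀ x : Fin n → Bool, (G (List.ofFn x)).Within (2 ^ (n / 16))) →
  (∀ x : Fin n → Bool, 1000 * (G (List.ofFn x)).moves ≤ n ^ 2) →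
  ∀ (M : ℕ) (_ : k < M) (_ : n < M) (E : Finset (ℕ × List Bool))
    (O : (∀ p : {a // a ∈ E}, Cz V p.1) → (List Bool → Bool) → List Bool → Bool),
    IsZ (dm (lx V)) E O →
    ∑ z : Za M, ∑ P, wz V E O (gza M z) P *
      ic ((1 / 2 + (1 / 2 : ℝ) ^ (n / 64)) * 2 ^ n < (rights G (O P (gza M z)) n : ℝ)) ≤
    Fintype.card (Za M) * (1 / 2) ^ 2 ^ (n / 28)

/-- FM2: the oracle for finitely many requirements. -/
def T_FM2 : Prop := ∀ (V : ℕ → Exa) (G : ℕ → (k : ℕ) × (List Bool → List Bool → Prot k)),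
  (∀ j, ∃ n₀, ∀ a x : List Bool, n₀ ≤ x.length → a.length ≤ 2 ^ (x.length / 30) →
    ((G j).2 a x).Within (2 ^ (x.length / 16))) →
  ∃ N : ℕ → ℕ, ∀ M : ℕ, ∃ O : List Bool → Bool,
    (∀ p, (sp (lx V) p).length ≤ M → GoodZ V p O) ∧
    (∀ k n, k < M → n < M → ∀ x : Fin n → Bool,
      Una O (k + 1) n (false :: hdr k (List.ofFn x))) ∧
    ∀ j < M, ∀ n < M, N j ≤ n → ∀ a : List Bool,
      (200 * a.length ≤ n ∨ (a.length ≤ 2 ^ (n / 30) ∧
        ∀ x : List Bool, x.length = n → 1000 * ((G j).2 a x).moves ≤ n ^ 2)) →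
      (rights ((G j).2 a) O n : ℝ) ≤ (1 / 2 + (1 / 2) ^ (n / 64)) * 2 ^ n

/-- FI2: the theorem. -/
def T_FI2 : Prop := ∀ (V : ℕ → Exa) (G : ℕ → (k : ℕ) × (List Bool → List Bool → Prot k)),
  (∀ j, ∃ n₀, ∀ a x : List Bool, n₀ ≤ x.length → a.length ≤ 2 ^ (x.length / 30) →
    ((G j).2 a x).Within (2 ^ (x.length / 16))) →
  ∃ O : List Bool → Bool,
    (∀ i x, (x ∈ (V i).M.lang O → (exact (ins (V i).c i x)).prob O = 1) ∧
      (x ∉ (V i).M.lang O → (exact (ins (V i).c i x)).prob O = 0)) ∧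
    (∀ (k : ℕ) (x : List Bool), Una O (k + 1) x.length (false :: hdr k x)) ∧
    ∀ j, ∃ n₀, ∀ n ≥ n₀, ∀ a : List Bool,
      (200 * a.length ≤ n ∨ (a.length ≤ 2 ^ (n / 30) ∧
        ∀ x : List Bool, x.length = n → 1000 * ((G j).2 a x).moves ≤ n ^ 2)) →
      (rights ((G j).2 a) O n : ℝ) ≤ (1 / 2 + (1 / 2) ^ (n / 64)) * 2 ^ n

end Pool.Agent.H18.XZ
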