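import Pool.Agent.H18.XZ.All
import Pool.Agent.H18.XZ.TE
import Pool.Agent.H58.XZ.CNM
import Pool.Agent.H61.XZ.HYM
import Pool.Agent.H66.XZ.CNB
import Pool.Agent.H78.XZ.CLP
import Pool.Agent.H78.XZ.DYA
import Pool.Agent.H86.XZ.DNP
import Pool.Agent.H15.XZ.BFC
import Pool.Agent.H79.XZ.RHC
import Pool.Agent.H79.XZ.PRC
import Pool.Agent.H21.XZ.FM3
import Pool.Agent.H19.XZ.FI3

/-!
# Assembly: exponentially long advice for protocols with few coins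
-/

set_option autoImplicit false

namespace Pool.Agent.H18.XZ

theorem qf_CNM : T_CNM := Pool.Agent.H58.XZ.CN.pf_CNM

theorem qf_HYM : T_HYM := Pool.Agent.H61.XZ.pf_HYM qf_CNM Pool.Agent.H18.XX.qf_CTN
  Pool.Agent.H66.IP.pf_MSB

theorem qf_CLP : T_CLP := Pool.Agent.H78.XZ.CLP.pf_CLP Pool.Agent.H70.EI.pf_LCL
  Pool.Agent.H70.EI.pf_CNJ Pool.Agent.H70.EI.pf_CLB_NB Pool.Agent.H18.XX.qf_CTN

theorem qf_CNB : T_CNB := Pool.Agent.H66.XZ.pf_CNB Pool.Agent.H66.AV.pf_AMP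
  Pool.Agent.H66.AV.pf_POW Pool.Agent.H66.AV.pf_NUM qf_NUS qf_CNC Pool.Agent.H66.AV.pf_RCT

theorem qf_DYA : T_DYA := Pool.Agent.H78.XZ.DYA.pf_DYA

theorem qf_DNP : T_DNP := Pool.Agent.H86.XZ.pf_DNP

theorem qf_BFC : T_BFC := Pool.Agent.H15.XZ.BFC.pf_BFC qf_DNP qf_DYA Pool.Agent.H66.IQ.pf_LCX
  Pool.Agent.H70.EI.pf_CLB_NB

theorem qf_RHC : T_RHC := Pool.Agent.H79.XZ.pf_RHC Pool.Agent.H66.IP.pf_IZU
  Pool.Agent.H66.IP.pf_SPF Pool.Agent.H18.XX.qf_RBF qf_CLP qf_BFC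

theorem qf_PRC : T_PRC := Pool.Agent.H79.XZ.pf_PRC qf_RHC qf_HYM qf_WYD qf_CNB
  Pool.Agent.H66.AV.pf_ALG Pool.Agent.H66.AV.pf_OVL Pool.Agent.H66.AV.pf_GZA

theorem qf_FM3 : T_FM3 := Pool.Agent.H21.XZ.FM3.pf_FM3 qf_SUS qf_PRC Pool.Agent.H18.XX.qf_HYZ
  Pool.Agent.H66.AV.pf_ALG Pool.Agent.H66.AV.pf_OVL Pool.Agent.H66.AV.pf_GZA
  Pool.Agent.H66.IP.pf_ISZ Pool.Agent.H66.IP.pf_SPF Pool.Agent.H17.XW.pf_UNA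

theorem qf_FI3 : T_FI3 := Pool.Agent.H19.XZ.FI3.pf_FI3 qf_FM3 Pool.Agent.H66.AV.pf_CPT
  Pool.Agent.H18.XX.qf_GDZ Pool.Agent.H66.AV.pf_RLO Pool.Agent.H17.XW.pf_UNL
  Pool.Agent.H18.XX.qf_EXZ

end Pool.Agent.H18.XZ
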