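import Pool.Agent.H18.XX.TB

/-!
# Exponentially large protocols beside the exponential hierarchy in EQP: targets, part A (the cube)

Rows `r : R`, positions `u : P`; a configuration `c : R → Option P` says which position of each row is
special (`none`: no special position). `v r c` is the value of the game of the row `r`.
-/

set_option autoImplicit false

namespace Pool.Agent.H18.XZ

open Finset Pool.Agent.H70.OQ
open Pool.Agent.H66.AV (sg)

section

variable {R P : Type}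

/-- The configuration of `ω`: the bit says whether there is a special position. -/
def cf (ω : R → Bool × P) (r : R) : Option P := if (ω r).1 then some (ω r).2 else none

/-- The special position of the row `r` is removed. -/
def rem [DecidableEq R] (r : R) (c : R → Option P) : R → Option P := Function.update c r none

/-- All special positions are in `L`. -/
def Okc (L : R → Finset P) (c : R → Option P) : Prop := ∀ r u, c r = some u → u ∈ L r

open Classical in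
/-- The mass of the changed rows. -/
noncomputable def cm [Fintype R] (a : R → P → ℝ) (c c' : R → Option P) : ℝ :=
  ∑ r, if c r = c' r then 0 else (c r).elim 0 (a r) + (c' r).elim 0 (a r)

/-- The weight of `ω`: the bits are uniform, the positions are uniform in `L`. -/
noncomputable def wt [Fintype R] [DecidableEq P] (L : R → Finset P) (ω : R → Bool × P) : ℝ :=
  ∏ r, if (ω r).2 ∈ L r then 1 / (2 * ((L r).card : ℝ)) else 0

/-- The first sum. -/
noncomputable def e0 [Fintype R] [DecidableEq R] (v : R → (R → Option P) → ℝ)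
    (ω : R → Bool × P) : ℝ := ∑ r, sg (ω r).1 * (v r (rem r (cf ω)) - 1 / 2)

/-- The second sum. -/
noncomputable def e1 [Fintype R] [DecidableEq R] (v : R → (R → Option P) → ℝ)
    (ω : R → Bool × P) : ℝ :=
  ∑ r, if (ω r).1 then max (v r (rem r (cf ω)) - v r (cf ω)) 0 else 0

end

/-- The values of the rows `(t, s t)` are replaced. -/
def rpl {ι J V : Type} [DecidableEq J] (s : ι → J) (ω : ι × J → V) (η : ι → V) : ι × J → V :=
  fun r => if r.2 = s r.1 then η r.1 else ω r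

/-- HFS: Hoeffding's inequality for random signs. -/
def T_HFS : Prop := ∀ (ι : Type) [Fintype ι] [DecidableEq ι] (c : ι → ℝ) (μ : ℝ),
  (∀ i, |c i| ≤ 1 / 2) → 0 ≤ μ →
  ((univ.filter fun b : ι → Bool => μ ≤ |∑ i, sg (b i) * c i|).card : ℝ) ≤
    2 * 2 ^ Fintype.card ι * Real.exp (-(2 * μ ^ 2 / Fintype.card ι))

/-- WTS: the weights. -/
def T_WTS : Prop := ∀ (R P : Type) [Fintype R] [DecidableEq R] [Fintype P] [DecidableEq P]
  (L : R → Finset P), (∀ r, (L r).Nonempty) →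
  ∑ ω : R → Bool × P, wt L ω = 1 ∧ (∀ ω, 0 ≤ wt L ω) ∧
  (∀ ω, wt L ω ≠ 0 → ∀ r, (ω r).2 ∈ L r) ∧
  ∀ F : (R → Bool) → (R → P) → ℝ,
    ∑ ω : R → Bool × P, wt L ω * F (fun r => (ω r).1) (fun r => (ω r).2) =
      (∑ b : R → Bool, ∑ u : R → P, uw L u * F b u) / 2 ^ Fintype.card R

/-- EXM: exponential moments. -/
def T_EXM : Prop := ∀ (ι P : Type) [Fintype ι] [DecidableEq ι] [Fintype P] [DecidableEq P]
  (L : ι → Finset P) (g : ι → P → ℝ) (η μ : ℝ), (∀ i, (L i).Nonempty) →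
  (∀ i u, 0 ≤ g i u ∧ g i u ≤ 1) → (∀ i, ∑ u ∈ L i, g i u ≤ η * (L i).card) →
  ∑ ω : ι → Bool × P, wt L ω * ic (μ ≤ ∑ i, g i (ω i).2) ≤
    Real.exp (2 * η * Fintype.card ι - μ)

/-- CUB: the inequality on a cube. -/
def T_CUB : Prop := ∀ (ι P : Type) [Fintype ι] [DecidableEq ι] [Fintype P] [DecidableEq P]
  (L : ι → Finset P) (M : ℕ) (W ε : ℝ) (v : ι → (ι → Option P) → ℝ)
  (al : ι → (ι → Option P) → ι → P → ℝ), (∀ t, M ≤ (L t).card) → 1 ≤ M → 0 < ε → ε ≤ 1 →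
  16 * W ≤ ε * M → (∀ t c, 0 ≤ v t c ∧ v t c ≤ 1) → (∀ t c t' u, 0 ≤ al t c t' u) →
  (∀ t c, ∑ u, al t c t u ≤ W) →
  (∀ t c c', Okc L c → Okc L c' → v t c - v t c' ≤ cm (al t c) c c') →
  ∑ ω : ι → Bool × P, wt L ω *
    ic ((∀ t, ∑ t' ∈ univ.erase t, ∑ u, al t (rem t (cf ω)) t' u ≤ ε / 4) ∧
      (ε / 2 * Fintype.card ι ≤ |e0 v ω| ∨ ε / 2 * Fintype.card ι ≤ e1 v ω)) ≤
    3 * Real.exp (-(ε ^ 2 * Fintype.card ι / 8))

/-- SMP: sampling one element of each group. -/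
def T_SMP : Prop := ∀ (ι J : Type) [Fintype ι] [DecidableEq ι] [Fintype J] [DecidableEq J]
  [Nonempty J],
  (∀ g : ι → J → ℝ, (Fintype.card J : ℝ) * ∑ s : ι → J, ∑ t, g t (s t) =
    (Fintype.card J : ℝ) ^ Fintype.card ι * ∑ t, ∑ j, g t j) ∧
  ∀ F : ι → J → ι → J → ℝ, (Fintype.card J : ℝ) ^ 2 *
      ∑ s : ι → J, ∑ t, ∑ t' ∈ univ.erase t, F t (s t) t' (s t') =
    (Fintype.card J : ℝ) ^ Fintype.card ι *
      ∑ t, ∑ t' ∈ univ.erase t, ∑ j, ∑ j', F t j t' j'

/-- RPL: resampling the rows `(t, s t)`. -/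
def T_RPL : Prop := ∀ (ι J V : Type) [Fintype ι] [DecidableEq ι] [Fintype J] [DecidableEq J]
  [Fintype V] [DecidableEq V] (w : ι × J → V → ℝ) (F : (ι × J → V) → ℝ) (s : ι → J),
  (∀ r, ∑ x, w r x = 1) →
  ∑ ω : ι × J → V, (∏ r, w r (ω r)) * F ω =
    ∑ ω : ι × J → V, (∏ r, w r (ω r)) *
      ∑ η : ι → V, (∏ t, w (t, s t) (η t)) * F (rpl s ω η)

/-- ABS: the inequality for all rows. -/
def T_ABS : Prop := ∀ (ι J P : Type) [Fintype ι] [DecidableEq ι] [Fintype J] [DecidableEq J]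
  [Fintype P] [DecidableEq P] [Nonempty ι] [Nonempty J] (L : ι × J → Finset P) (M : ℕ)
  (W ε : ℝ) (v : ι × J → (ι × J → Option P) → ℝ), (∀ r, M ≤ (L r).card) → 1 ≤ M → 0 < ε →
  ε ≤ 1 → 0 ≤ W → 16 * W ≤ ε * M → 16 * Fintype.card ι * W ≤ ε ^ 2 * Fintype.card J →
  (∀ r c, 0 ≤ v r c ∧ v r c ≤ 1) →
  (∀ r c, Okc L c → ∃ a : ι × J → P → ℝ, (∀ r' u, 0 ≤ a r' u) ∧ ∑ r', ∑ u, a r' u ≤ W ∧
    ∀ c', Okc L c' → v r c - v r c' ≤ cm a c c') →
  ∑ ω : ι × J → Bool × P, wt L ω *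
    ic (ε * Fintype.card (ι × J) ≤ |e0 v ω| ∨ ε * Fintype.card (ι × J) ≤ e1 v ω) ≤
    12 / ε * Real.exp (-(ε ^ 2 * Fintype.card ι / 8))

end Pool.Agent.H18.XZ
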