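import Pool.Agent.H18.XZ.TA

/-!
# Exponentially large protocols beside the exponential hierarchy in EQP: targets, part B (tables)
-/

set_option autoImplicit false

namespace Pool.Agent.H18.XZ

open Finset Pool.Agent.H6.NB Pool.Agent.H70.OQ Pool.Agent.H70.EH Pool.Agent.H70.EI Pool.Agent.H78.XQ
open Pool.Agent.H66.IQ Pool.Agent.H66.AV

/-! ## Decision trees over the live rows -/

/-- Relative to the hidden children `H` the function `f` of the table is a decision tree of depth at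
most `w` in the values of the rows, as long as only live rows have the value `false`. -/
def DTp {X : Type} {Y : ℕ → Type} [∀ i, DecidableEq (Y i)] (w k : ℕ)
    (f : (Node X Y k → Bool) → Bool) (l : X → Bool) (H : Hid X Y k) : Prop :=
  ∃ T : Pool.Agent.H68.AC.DT X, T.depth ≤ w ∧
    ∀ b : X → Bool, (∀ x, l x = false → b x = true) → T.eval b = f (sv b k H)

/-- TDI: the induction over the depth (adapted from TBI). -/
def T_TDI : Prop := ∀ (X : Type) (Y : ℕ → Type) [Fintype X] [DecidableEq X] [∀ i, Fintype (Y i)]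
  [∀ i, DecidableEq (Y i)] [∀ i, Nonempty (Y i)] (S w G : ℕ) (q : ℝ), 1 ≤ w → 0 < q →
  64 * w * q ≤ 1 → ∀ k : ℕ,
  (∀ i < k, G * Fintype.card (Node X Y i) ≤ Fintype.card (Y i)) →
  ∀ (L : Node X Y k → Finset (Y k)) (f : (Node X Y (k + 1) → Bool) → Bool), Fm S w (k + 1) f →
  (∀ a, Fintype.card (Node X Y k) ≤ (L a).card) →
  ∑ l : X → Bool, lw q l * ∑ H : Hid X Y k, ∑ h : Node X Y k → Y k, uw L h *
      ic (¬ DTp w (k + 1) f l ((H, h) : Hid X Y (k + 1))) ≤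
    errT X Y S w G q k * Fintype.card (Hid X Y k)

/-- TDL: a formula is rarely not a decision tree over the live rows. -/
def T_TDL : Prop := ∀ (X : Type) (Y : ℕ → Type) [Fintype X] [DecidableEq X] [∀ i, Fintype (Y i)]
  [∀ i, DecidableEq (Y i)] [∀ i, Nonempty (Y i)] (k S t w G : ℕ) (q : ℝ), 1 ≤ w → t ≤ w → 0 < q →
  64 * w * q ≤ 1 → 1 ≤ G →
  (∀ i < k, G * Fintype.card (Node X Y i) ≤ Fintype.card (Y i)) →
  ∀ f : (Node X Y k → Bool) → Bool, Fm S t k f →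
  ∑ l : X → Bool, lw q l * ∑ H : Hid X Y k, ic (¬ DTp w k f l H) ≤
    errT X Y S w G q k * Fintype.card (Hid X Y k)

/-- ISO: a family of tables is a table. -/
def T_ISO : Prop := ∀ (R A : Type) (Y : ℕ → Type) [∀ i, DecidableEq (Y i)] (k : ℕ),
  ∃ (φ : (R → Hid A Y k) ≃ Hid (R × A) Y k) (ψ : R × Node A Y k ≃ Node (R × A) Y k),
    ∀ (b : R × A → Bool) (H : R → Hid A Y k) (r : R) (x : Node A Y k),
      sv b k (φ H) (ψ (r, x)) = sv (fun u => b (r, u)) k (H r) x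

/-! ## The rows of a block of inputs -/

/-- The values of the rows: `false` for the special ones. -/
def pat {R P : Type} [DecidableEq P] (c : R → Option P) (p : R × P) : Bool :=
  !decide (c p.1 = some p.2)

open Classical in
/-- The tables of the inputs `e r` have the hidden children `H r` and the rows with the values `y`; the
tables of the other inputs are those of `z`. -/
noncomputable def tby {R : Type} {n k : ℕ} (e : R → Fin n → Bool) (z : Wn n k)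
    (H : R → Hid (Fin n → Bool) (Ys n) k) (y : R × (Fin n → Bool) → Bool) (x : Fin n → Bool) :
    Nn n k → Bool :=
  if h : ∃ r, e r = x then sv (fun u => y (h.choose, u)) k (H h.choose) else tbl z x

open Classical in
/-- The choices for the inputs `e r` are replaced. -/
noncomputable def zby {R : Type} {n k : ℕ} (e : R → Fin n → Bool) (z : Wn n k)
    (b : R → Bool) (H : R → Hid (Fin n → Bool) (Ys n) k) (u : R → Fin n → Bool) : Wn n k :=
  fun x => if h : ∃ r, e r = x then (b h.choose, H h.choose, u h.choose) else z x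

/-- TBZ: tables. -/
def T_TBZ : Prop := ∀ (R : Type) [DecidableEq R] (n k : ℕ) (e : R → Fin n → Bool), Function.Injective e →
  ∀ (z : Wn n k) (b : R → Bool) (H : R → Hid (Fin n → Bool) (Ys n) k) (u : R → Fin n → Bool),
  tbl (zby e z b H u) = tby e z H (pat (cf fun r => (b r, u r))) ∧
  (∀ r, zby e z b H u (e r) = (b r, H r, u r)) ∧
  ∀ r, tbl (zer (zby e z b H u) (e r)) = tby e z H (pat (rem r (cf fun r => (b r, u r))))

/-- MAS: the masses of the rows. -/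
def T_MAS : Prop := ∀ (k m : ℕ) (G : Prot k), G.Within m →
  ∃ Ψ : Finset (Machine k × List Bool), Ψ.card ≤ 2 ^ (2 * m) ∧
    (∀ c ∈ Ψ, c.2.length ^ c.1.c + c.1.c ≤ m) ∧
    ∀ (R P : Type) [Fintype R] [DecidableEq R] [Fintype P] [DecidableEq P] (w : ℕ)
      (L : R → Finset P) (O : (R × P → Bool) → List Bool → Bool),
      (∀ c ∈ Ψ, ∃ T : Pool.Agent.H68.AC.DT (R × P), T.depth ≤ w ∧
        ∀ y, (∀ r u, u ∉ L r → y (r, u) = true) → (T.eval y = true ↔ c.2 ∈ c.1.lang (O y))) →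
      ∀ c : R → Option P, Okc L c → ∃ a : R → P → ℝ, (∀ r u, 0 ≤ a r u) ∧
        ∑ r, ∑ u, a r u ≤ (m : ℝ) * w ∧
        ∀ c', Okc L c' → G.val (O (pat c)) - G.val (O (pat c')) ≤ cm a c c'

/-- BLD: a question is rarely not a decision tree over the live rows. -/
def T_BLD : Prop := ∀ (R : Type) [Fintype R] [DecidableEq R] (n k : ℕ) (e : R → Fin n → Bool),
  Function.Injective e → ∀ (z : Wn n k)
  (Q : ((Fin n → Bool) → Nn n k → Bool) → List Bool → Bool), LitT Q →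
  ∀ (t w G : ℕ) (q : ℝ), 1 ≤ w → t ≤ w → 0 < q → 64 * w * q ≤ 1 → 1 ≤ G →
  (∀ i < k, G * Fintype.card (Node (R × (Fin n → Bool)) (Ys n) i) ≤ Fintype.card (Ys n i)) →
  ∀ c : Machine k × List Bool, c.2.length ^ c.1.c + c.1.c < t →
  ∑ l : R × (Fin n → Bool) → Bool, lw q l *
      ∑ H : R → Hid (Fin n → Bool) (Ys n) k,
        ic (¬ ∃ T : Pool.Agent.H68.AC.DT (R × (Fin n → Bool)), T.depth ≤ w ∧
          ∀ y, (∀ p, l p = false → y p = true) →
            (T.eval y = true ↔ c.2 ∈ c.1.lang (Q (tby e z H y)))) ≤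
    errT (R × (Fin n → Bool)) (Ys n) (2 ^ t) w G q k *
      Fintype.card (R → Hid (Fin n → Bool) (Ys n) k)

/-- The block of the inputs `e r` is bad. -/
def Bdb {R : Type} [Fintype R] {n k : ℕ} (A : (Fin n → Bool) → Prot k)
    (Q : ((Fin n → Bool) → Nn n k → Bool) → List Bool → Bool) (ε : ℝ) (e : R → Fin n → Bool)
    (z : Wn n k) : Prop :=
  ε * Fintype.card R ≤ |∑ r, Pool.Agent.H66.AV.sg (z (e r)).1 * (v0 A Q z (e r) - 1 / 2)| ∨
  ε * Fintype.card R ≤ ∑ r, if (z (e r)).1 then max (v0 A Q z (e r) - v1 A Q z (e r)) 0 else 0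

open Classical in
/-- BLF: bad blocks are rare if all other tables are fixed. -/
def T_BLF : Prop := ∀ (ι J : Type) [Fintype ι] [DecidableEq ι] [Fintype J] [DecidableEq J]
  [Nonempty ι] [Nonempty J] (n k m w G G' M : ℕ) (q ε : ℝ) (e : ι × J → Fin n → Bool),
  Function.Injective e → 1 ≤ w → m + 1 ≤ w → 0 < q → 64 * w * q ≤ 1 → 1 ≤ G → 1 ≤ M →
  (∀ i < k, G * Fintype.card (Node ((ι × J) × (Fin n → Bool)) (Ys n) i) ≤
    Fintype.card (Ys n i)) → G' * M ≤ 2 ^ n → 0 < ε → ε ≤ 1 →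
  16 * ((m : ℝ) * w) ≤ ε * M → 16 * Fintype.card ι * ((m : ℝ) * w) ≤ ε ^ 2 * Fintype.card J →
  ∀ A : (Fin n → Bool) → Prot k, (∀ x, (A x).Within m) →
  ∀ Q : ((Fin n → Bool) → Nn n k → Bool) → List Bool → Bool, LitT Q → ∀ z : Wn n k,
  ((univ.filter fun y : (ι × J → Bool) × (ι × J → Hid (Fin n → Bool) (Ys n) k) ×
      (ι × J → Fin n → Bool) => Bdb A Q ε e (zby e z y.1 y.2.1 y.2.2)).card : ℝ) ≤
    Fintype.card ((ι × J → Bool) × (ι × J → Hid (Fin n → Bool) (Ys n) k) ×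
      (ι × J → Fin n → Bool)) *
    (Fintype.card (ι × J) * 2 ^ (2 * m) *
        errT ((ι × J) × (Fin n → Bool)) (Ys n) (2 ^ (m + 1)) w G q k +
      Fintype.card (ι × J) * M * (1 - q) ^ G' +
      12 / ε * Real.exp (-(ε ^ 2 * Fintype.card ι / 8)))

open Classical in
/-- BLK: bad blocks are rare. -/
def T_BLK : Prop := ∀ (R : Type) [Fintype R] [DecidableEq R] (n k : ℕ) (e : R → Fin n → Bool),
  Function.Injective e → ∀ (C : Wn n k → Prop) (δ : ℝ),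
  (∀ z : Wn n k, ((univ.filter fun y : (R → Bool) × (R → Hid (Fin n → Bool) (Ys n) k) ×
      (R → Fin n → Bool) => C (zby e z y.1 y.2.1 y.2.2)).card : ℝ) ≤
    Fintype.card ((R → Bool) × (R → Hid (Fin n → Bool) (Ys n) k) × (R → Fin n → Bool)) * δ) →
  ((univ.filter fun z : Wn n k => C z).card : ℝ) ≤ Fintype.card (Wn n k) * δ

/-- CRD: cardinalities. -/
def T_CRD : Prop := ∀ (R : Type) [Fintype R] [DecidableEq R] (n a : ℕ), a ≤ n →
  Fintype.card R = 2 ^ a → ∀ i : ℕ,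
  2 ^ (n - a) * Fintype.card (Node (R × (Fin n → Bool)) (Ys n) i) ≤ Fintype.card (Ys n i)

/-- NUB: numbers. -/
def T_NUB : Prop := ∀ k : ℕ, ∃ n₀, ∀ n ≥ n₀, ∀ m w a₁ a₂ : ℕ, ∀ q : ℝ, m = 2 ^ (n / 6) →
  w = 8 * ((k + 3) * (m + 1)) → q = 1 / (64 * w) → a₁ = n / 9 → a₂ = 5 * n / 8 - n / 9 →
  a₁ + a₂ ≤ n ∧
  16 * ((m : ℝ) * w) ≤ (1 / 2) ^ (n / 36) * ((2 ^ (n - n / 2) : ℕ) : ℝ) ∧
  16 * ((2 ^ a₁ : ℕ) : ℝ) * ((m : ℝ) * w) ≤ ((1 / 2) ^ (n / 36)) ^ 2 * ((2 ^ a₂ : ℕ) : ℝ) ∧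
  2 ^ n * (((2 ^ a₁ * 2 ^ a₂ : ℕ) : ℝ) * 2 ^ (2 * m) *
        errT ((Fin (2 ^ a₁) × Fin (2 ^ a₂)) × (Fin n → Bool)) (Ys n) (2 ^ (m + 1)) w
          (2 ^ (n - (a₁ + a₂))) q k +
      ((2 ^ a₁ * 2 ^ a₂ : ℕ) : ℝ) * ((2 ^ (n - n / 2) : ℕ) : ℝ) * (1 - q) ^ 2 ^ (n / 2) +
      12 / (1 / 2) ^ (n / 36) * Real.exp (-(((1 / 2) ^ (n / 36)) ^ 2 * ((2 ^ a₁ : ℕ) : ℝ) / 8))) ≤
    (1 / 2) ^ 2 ^ (n / 20)

/-- CNC: the test function is rarely large. -/
def T_CNC : Prop := ∀ k : ℕ, ∃ n₀, ∀ n ≥ n₀, ∀ (A C : (Fin n → Bool) → Prot k) (B : ℕ), 1 ≤ B →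
  (∀ x, (A x).Within (2 ^ (n / 6))) → (∀ x O, 1 - (C x).val O = (1 - (A x).val O) ^ B) →
  ∀ Q : ((Fin n → Bool) → Nn n k → Bool) → List Bool → Bool, LitT Q →
  ((univ.filter fun z : Wn n k => ¬ (|s0 A Q z| ≤ (1 / 2) ^ (n / 36) * 2 ^ n ∧
      s1 A C Q z ≤ 2 ^ n * (1 / B + 2 * (1 / 2) ^ (n / 36)))).card : ℝ) ≤
    Fintype.card (Wn n k) * (1 / 2) ^ 2 ^ (n / 20)

end Pool.Agent.H18.XZ
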