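import Pool.Agent.H18.XZ.TB

/-!
# Exponentially large protocols beside the exponential hierarchy in EQP: targets, part C (the oracle)

Copies of the targets of `Pool.Agent.H18.XX.TB` with the scale `n / 100` instead of `log₂ n + 18`.
-/

set_option autoImplicit false

namespace Pool.Agent.H18.XZ

open Finset Pool.Agent.H6.NB Pool.Agent.H70.OQ Pool.Agent.H70.EH Pool.Agent.H70.EI Pool.Agent.H78.XQ
open Pool.Agent.H66.IP (Local ins sp dm IsZ scl mBp m0p)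
open Pool.Agent.H66.IQ Pool.Agent.H66.AV
open Pool.Agent.H17.XW (Una)
open Pool.Agent.H18.XX (Exa lx ax GoodZ Cz wz wy RhZ)

/-- PFS: a pair of protocols does not see the blocks of large scale. -/
def T_PFS : Prop := ∀ (V : ℕ → Exa) (k : ℕ), ∃ n₀, ∀ n ≥ n₀, ∀ G₁ G₂ : Prot k,
  G₁.Within (2 ^ (n / 4)) → G₂.Within (2 ^ (n / 4)) →
  ∀ (E : Finset (ℕ × List Bool))
    (O : (∀ p : {a // a ∈ E}, Cz V p.1) → (List Bool → Bool) → List Bool → Bool),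
    IsZ (dm (lx V)) E O → ∀ (g g₁ g₂ : List Bool → Bool) (p : {a // a ∈ E}),
      n / 100 < scl (lx V) p.1 →
      RhZ V E O g p fun P => G₁.val (O P g₁) * G₂.val (O P g₂)

/-- WYD: the weights are dominated by weights which do not depend on the default oracle. -/
def T_WYD : Prop := ∀ (V : ℕ → Exa) (E : Finset (ℕ × List Bool))
  (O : (∀ p : {a // a ∈ E}, Cz V p.1) → (List Bool → Bool) → List Bool → Bool) (s : ℕ),
  ∃ D : (∀ p : {a // a ∈ E}, Cz V p.1) → ℝ, (∀ P, 0 ≤ D P) ∧ ∑ P, D P ≤ 2 ^ 2 ^ s ∧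
    ∀ g P, wy V E O s g P ≤ D P

/-- RXS: the expectation of the test function. -/
def T_RXS : Prop := ∀ (V : ℕ → Exa) (k : ℕ), ∃ n₀, ∀ n ≥ n₀,
  ∀ (A C : (Fin n → Bool) → Prot k) (B : ℕ), 1 ≤ B → (∀ x, (A x).Within (2 ^ (n / 6))) →
  (∀ x, (C x).Within (2 ^ (n / 4))) → (∀ x O, 1 - (C x).val O = (1 - (A x).val O) ^ B) →
  ∀ ε : ℝ, 0 < ε → ε ≤ 1 →
  ∀ (E : Finset (ℕ × List Bool))
    (O : (∀ p : {a // a ∈ E}, Cz V p.1) → (List Bool → Bool) → List Bool → Bool),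
    IsZ (dm (lx V)) E O → ∀ g : List Bool → Bool,
  ∑ z : Wn n k, ∑ P, wz V E O (ovl n k g (tbl z)) P *
      tst ε A C (fun T => O P (ovl n k g T)) z ≤
    Fintype.card (Wn n k) *
      (5 / 4 * (16 / ε ^ 2 * ((1 / 2) ^ (n / 36)) ^ 2 +
          2 / ε * (1 / B + 2 * (1 / 2) ^ (n / 36))) +
        (4 / ε ^ 2 + 2 / ε) * (2 ^ 2 ^ (n / 100) * (1 / 2) ^ 2 ^ (n / 20)) +
        (36 / ε ^ 2 + 4 / ε) * (1 / 2) ^ (n / 100) ^ 3)

/-- NUS: numbers. -/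
def T_NUS : Prop := ∃ n₀, ∀ n ≥ n₀,
  5 / 4 * (16 / ((1 / 2 : ℝ) ^ (n / 64)) ^ 2 * ((1 / 2) ^ (n / 36)) ^ 2 +
      2 / (1 / 2) ^ (n / 64) * (1 / ((2 ^ (n / 32) : ℕ) : ℝ) + 2 * (1 / 2) ^ (n / 36))) +
    (4 / ((1 / 2 : ℝ) ^ (n / 64)) ^ 2 + 2 / (1 / 2) ^ (n / 64)) *
      (2 ^ 2 ^ (n / 100) * (1 / 2) ^ 2 ^ (n / 20)) +
    (36 / ((1 / 2 : ℝ) ^ (n / 64)) ^ 2 + 4 / (1 / 2) ^ (n / 64)) * (1 / 2) ^ (n / 100) ^ 3 ≤
  (1 / 2) ^ (n / 100)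

/-- SUS: the expectation of the test function for all tables at once, uniformly in the protocols. -/
def T_SUS : Prop := ∀ (V : ℕ → Exa) (k : ℕ), ∃ n₁, ∀ n ≥ n₁, ∀ G : List Bool → Prot k,
  (∀ x : Fin n → Bool, (G (List.ofFn x)).Within (2 ^ (n / 16))) →
  ∃ A C : (Fin n → Bool) → Prot k,
    (∀ (Q : ((Fin n → Bool) → Nn n k → Bool) → List Bool → Bool) (z : Wn n k),
      0 ≤ tst ((1 / 2) ^ (n / 64)) A C Q z ∧
      ((∀ x, List.ofFn x ∈ alang k (Q (tbl z)) ↔ (z x).1 = true) →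
        tst ((1 / 2) ^ (n / 64)) A C Q z < 1 →
        (rights G (Q (tbl z)) n : ℝ) ≤ (1 / 2 + (1 / 2) ^ (n / 64)) * 2 ^ n)) ∧
    ∀ (M : ℕ) (hk : k < M) (hn : n < M) (E : Finset (ℕ × List Bool))
      (O : (∀ p : {a // a ∈ E}, Cz V p.1) → (List Bool → Bool) → List Bool → Bool),
      IsZ (dm (lx V)) E O →
      ∑ z : Za M, ∑ P, wz V E O (gza M z) P *
        tst ((1 / 2) ^ (n / 64)) A C (fun T => O P (ovl n k (gza M z) T))
          (z (⟨k, hk⟩, ⟨n, hn⟩)) ≤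
      Fintype.card (Za M) * (1 / 2) ^ (n / 100)

/-- FMS: the oracle for finitely many requirements. -/
def T_FMS : Prop := ∀ (V : ℕ → Exa) (G : ℕ → (k : ℕ) × (List Bool → List Bool → Prot k)),
  (∀ j, ∃ n₀, ∀ a x : List Bool, n₀ ≤ x.length → 200 * a.length ≤ x.length →
    ((G j).2 a x).Within (2 ^ (x.length / 16))) →
  ∃ N : ℕ → ℕ, ∀ M : ℕ, ∃ O : List Bool → Bool,
    (∀ p, (sp (lx V) p).length ≤ M → GoodZ V p O) ∧
    (∀ k n, k < M → n < M → ∀ x : Fin n → Bool,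
      Una O (k + 1) n (false :: hdr k (List.ofFn x))) ∧
    ∀ j < M, ∀ n < M, N j ≤ n → ∀ a : List Bool, 200 * a.length ≤ n →
      (rights ((G j).2 a) O n : ℝ) ≤ (1 / 2 + (1 / 2) ^ (n / 64)) * 2 ^ n

/-- FIS: the theorem. -/
def T_FIS : Prop := ∀ (V : ℕ → Exa) (G : ℕ → (k : ℕ) × (List Bool → List Bool → Prot k)),
  (∀ j, ∃ n₀, ∀ a x : List Bool, n₀ ≤ x.length → 200 * a.length ≤ x.length →
    ((G j).2 a x).Within (2 ^ (x.length / 16))) →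
  ∃ O : List Bool → Bool,
    (∀ i x, (x ∈ (V i).M.lang O → (exact (ins (V i).c i x)).prob O = 1) ∧
      (x ∉ (V i).M.lang O → (exact (ins (V i).c i x)).prob O = 0)) ∧
    (∀ (k : ℕ) (x : List Bool), Una O (k + 1) x.length (false :: hdr k x)) ∧
    ∀ j, ∃ n₀, ∀ n ≥ n₀, ∀ a : List Bool, 200 * a.length ≤ n →
      (rights ((G j).2 a) O n : ℝ) ≤ (1 / 2 + (1 / 2) ^ (n / 64)) * 2 ^ n

end Pool.Agent.H18.XZ
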